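import Mathlib

set_option autoImplicit false

/-!
For an operator `S` from a Hilbert space `X` to a Banach space `Y`,
`c_{n-1}(S, B_X) ≤ n^{1/2} (∏_{k<n} h_k(S, B_X))^{1/n}`.
-/

open Finset Metric
open scoped ENNReal InnerProductSpace

namespace Pool.Agent.Results.MP_93c8fe_an.GelfandHilbert

/-- The real sequence space `ℓ₂`. -/
abbrev Ell2 : Type := lp (fun _ : ℕ => ℝ) 2

/-- The `n`-th Gelfand number of `S` on the set `F`: the infimum over `n` functionals `L₁, …, Lₙ`
of the supremum of `½ ‖S f - S g‖` over the pairs `f, g ∈ F` on which the functionals agree. -/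
noncomputable def gelfand {X Y : Type*} [NormedAddCommGroup X] [NormedSpace ℝ X]
    [NormedAddCommGroup Y] (S : X → Y) (F : Set X) (n : ℕ) : ℝ≥0∞ :=
  ⨅ L : Fin n → (X →L[ℝ] ℝ), ⨆ (f : X) (_ : f ∈ F) (g : X) (_ : g ∈ F)
    (_ : ∀ k, L k f = L k g), ENNReal.ofReal (‖S f - S g‖ / 2)

/-- `B : Y → H` is a linear operator of norm at most one. -/
def IsContraction {Y H : Type*} [NormedAddCommGroup Y] [NormedSpace ℝ Y] [NormedAddCommGroup H]
    [NormedSpace ℝ H] (B : Y → H) : Prop :=
  IsBoundedLinearMap ℝ B ∧ ∀ y, ‖B y‖ ≤ ‖y‖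

/-- `A : H → X` is a bounded linear operator, `x ∈ F`, and `A (B_H) + x ⊆ F`, where `B_H` is the
closed unit ball of `H`. -/
def IsAdmissible {H X : Type*} [NormedAddCommGroup H] [NormedSpace ℝ H] [NormedAddCommGroup X]
    [NormedSpace ℝ X] (A : H → X) (x : X) (F : Set X) : Prop :=
  IsBoundedLinearMap ℝ A ∧ x ∈ F ∧ ∀ v : H, ‖v‖ ≤ 1 → A v + x ∈ F

/-- The `n`-th Gelfand number of `S` on the closed unit ball. -/
noncomputable def gelfandBall {X Y : Type*} [NormedAddCommGroup X] [NormedSpace ℝ X]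
    [NormedAddCommGroup Y] (S : X → Y) (n : ℕ) : ℝ≥0∞ :=
  gelfand S (closedBall 0 1) n

/-- The `n`-th Hilbert number of `S` on the set `F`: the supremum of the `n`-th Gelfand numbers of
`B S A` on the unit ball of `ℓ₂`, over all linear `B : Y → ℓ₂` of norm at most one, all bounded
linear `A : ℓ₂ → X` and all `x ∈ F` such that `A (B_{ℓ₂}) + x ⊆ F`. -/
noncomputable def hilbertNumber {X Y : Type*} [NormedAddCommGroup X] [NormedSpace ℝ X]
    [NormedAddCommGroup Y] [NormedSpace ℝ Y] (S : X → Y) (F : Set X) (n : ℕ) : ℝ≥0∞ :=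
  ⨆ (B : Y → Ell2) (_ : IsContraction B) (A : Ell2 → X) (x : X) (_ : IsAdmissible A x F),
    gelfandBall (fun v => B (S (A v))) n

namespace Aux

section FiniteDim

/-- lower bounds for Gelfand numbers in finite dimension -/
theorem exists_singular {E : Type*} [NormedAddCommGroup E] [InnerProductSpace ℝ E]
    [FiniteDimensional ℝ E] {n : ℕ} (hn : Module.finrank ℝ E = n) (T : E →ₗ[ℝ] E) :
    ∃ s : Fin n → ℝ, (∀ i, 0 ≤ s i) ∧ ∏ i, s i = |LinearMap.det T| ∧
      ∀ (k : Fin n) (L : E →ₗ[ℝ] (Fin k → ℝ)), ∃ v : E, ‖v‖ = 1 ∧ L v = 0 ∧ s k ≤ ‖T v‖ := by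
  classical
  have hsym : (LinearMap.adjoint T * T).IsSymmetric := LinearMap.isSymmetric_adjoint_mul_self T
  set lam := hsym.eigenvalues hn with hlam
  set b := hsym.eigenvectorBasis hn with hb
  have hTb : ∀ i, (LinearMap.adjoint T * T) (b i) = lam i • b i := fun i =>
    hsym.apply_eigenvectorBasis hn i
  have hnonneg : ∀ i, 0 ≤ lam i := by
    intro i
    have h1 : ⟪(LinearMap.adjoint T * T) (b i), b i⟫_ℝ = lam i := by
      rw [hTb, real_inner_smul_left, real_inner_self_eq_norm_sq, b.norm_eq_one]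
      ring
    rw [← h1, Module.End.mul_apply, LinearMap.adjoint_inner_left]
    exact real_inner_self_nonneg
  refine ⟨fun i => Real.sqrt (lam i), fun i => Real.sqrt_nonneg _, ?_, ?_⟩
  · have h1 : LinearMap.det (LinearMap.adjoint T * T) = ∏ i, lam i := by
      have := hsym.det_eq_prod_eigenvalues hn
      simpa using this
    rw [← Real.sqrt_prod _ (fun i _ => hnonneg i), ← h1, map_mul]
    have h2 : LinearMap.det (LinearMap.adjoint T) = LinearMap.det T := by
      rw [← LinearMap.det_toMatrix b.toBasis, LinearMap.toMatrix_adjoint,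
        Matrix.det_conjTranspose, LinearMap.det_toMatrix]
      simp
    rw [h2, Real.sqrt_mul_self_eq_abs]
  · intro k L
    -- a nonzero combination of the first `k+1` eigenvectors in the kernel of `L`
    set emb : Fin (k + 1) → Fin n := fun i => ⟨i, lt_of_lt_of_le i.2 k.2⟩ with hemb
    have hinj : Function.Injective emb := by
      intro i j h
      simp only [hemb, Fin.mk.injEq] at h
      exact Fin.ext h
    set φ : (Fin (k + 1) → ℝ) →ₗ[ℝ] E := Fintype.linearCombination ℝ (fun i => b (emb i)) with hφ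
    have hker : (LinearMap.ker (L ∘ₗ φ)) ≠ ⊥ := by
      apply LinearMap.ker_ne_bot_of_finrank_lt
      simp
    obtain ⟨c, hc, hc0⟩ := Submodule.exists_mem_ne_zero_of_ne_bot hker
    rw [LinearMap.mem_ker, LinearMap.comp_apply] at hc
    have hφc : φ c = ∑ i, c i • b (emb i) := by
      rw [hφ, Fintype.linearCombination_apply]
    have hon : Orthonormal ℝ (fun i => b (emb i)) := b.orthonormal.comp _ hinj
    have hnorm : ‖φ c‖ ^ 2 = ∑ i, c i ^ 2 := by
      rw [hφc, ← real_inner_self_eq_norm_sq, hon.inner_sum]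
      refine sum_congr rfl fun i _ => ?_
      simp [sq]
    have hpos : 0 < ∑ i, c i ^ 2 := by
      obtain ⟨i, hi⟩ := Function.ne_iff.1 hc0
      have : 0 < c i ^ 2 := by
        have : c i ≠ 0 := hi
        positivity
      exact sum_pos' (fun j _ => sq_nonneg (c j)) ⟨i, mem_univ i, this⟩
    have hTnorm : lam k * ∑ i, c i ^ 2 ≤ ‖T (φ c)‖ ^ 2 := by
      have h1 : ‖T (φ c)‖ ^ 2 = ⟪(LinearMap.adjoint T * T) (φ c), φ c⟫_ℝ := by
        rw [Module.End.mul_apply, LinearMap.adjoint_inner_left, real_inner_self_eq_norm_sq]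
      have h2 : (LinearMap.adjoint T * T) (φ c) = ∑ i, (c i * lam (emb i)) • b (emb i) := by
        rw [hφc, map_sum]
        refine sum_congr rfl fun i _ => ?_
        rw [map_smul, hTb, smul_smul]
      rw [h1, h2, hφc, hon.inner_sum, mul_sum]
      refine sum_le_sum fun i _ => ?_
      have h3 : lam k ≤ lam (emb i) := by
        apply hsym.eigenvalues_antitone hn
        rw [Fin.le_def]
        simp only [hemb]
        omega
      simp only [map_mul, conj_trivial]
      nlinarith [sq_nonneg (c i), mul_le_mul_of_nonneg_right h3 (sq_nonneg (c i))]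
    have hφpos : 0 < ‖φ c‖ := by
      by_contra h
      have h1 : ‖φ c‖ = 0 := le_antisymm (not_lt.1 h) (norm_nonneg _)
      rw [h1] at hnorm
      norm_num at hnorm
      rw [← hnorm] at hpos
      exact lt_irrefl _ hpos
    refine ⟨(‖φ c‖)⁻¹ • φ c, ?_, ?_, ?_⟩
    · rw [norm_smul, norm_inv, norm_norm, inv_mul_cancel₀ hφpos.ne']
    · rw [map_smul, hc, smul_zero]
    · rw [map_smul, norm_smul, norm_inv, norm_norm, Real.sqrt_le_left (by positivity), mul_pow]
      rw [← hnorm] at hTnorm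
      calc lam k = (‖φ c‖⁻¹) ^ 2 * (lam k * ‖φ c‖ ^ 2) := by
            field_simp
        _ ≤ (‖φ c‖⁻¹) ^ 2 * ‖T (φ c)‖ ^ 2 :=
            mul_le_mul_of_nonneg_left hTnorm (by positivity)

end FiniteDim

section Recursion

variable {X Y : Type*} [NormedAddCommGroup X] [InnerProductSpace ℝ X] [CompleteSpace X]
  [NormedAddCommGroup Y] [NormedSpace ℝ Y]

omit [CompleteSpace X] in
theorem exists_mem_ker (S : X →L[ℝ] Y) (m : ℕ) (t : ℝ) (ht0 : 0 ≤ t)
    (ht : ENNReal.ofReal t < gelfand S (closedBall 0 1) m) (k : ℕ) (hk : k ≤ m)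
    (L : ℕ → (X →L[ℝ] ℝ)) : ∃ x : X, ‖x‖ ≤ 1 ∧ (∀ i < k, L i x = 0) ∧ t < ‖S x‖ := by
  have h1 := lt_of_lt_of_le ht (iInf_le _ (fun i : Fin m => if (i : ℕ) < k then L i else 0))
  simp only [lt_iSup_iff] at h1
  obtain ⟨f, hf, g, hg, hfg, h⟩ := h1
  rw [mem_closedBall_zero_iff] at hf hg
  refine ⟨(1 / 2 : ℝ) • (f - g), ?_, ?_, ?_⟩
  · rw [norm_smul]
    have := norm_sub_le f g
    rw [Real.norm_of_nonneg (by norm_num)]
    linarith
  · intro i hi
    have h2 := hfg ⟨i, lt_of_lt_of_le hi hk⟩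
    simp only [hi, if_true] at h2
    rw [map_smul, map_sub, h2, sub_self, smul_zero]
  · rw [map_smul, norm_smul, map_sub, Real.norm_of_nonneg (by norm_num)]
    have h3 := (ENNReal.ofReal_lt_ofReal_iff_of_nonneg ht0).1 h
    linarith

theorem recursion (S : X →L[ℝ] Y) (m : ℕ) (t : ℝ) (ht0 : 0 ≤ t)
    (ht : ENNReal.ofReal t < gelfand S (closedBall 0 1) m) (k : ℕ) (hk : k ≤ m + 1) :
    ∃ (y : ℕ → (Y →L[ℝ] ℝ)) (e : ℕ → X), (∀ i < k, ‖y i‖ ≤ 1) ∧ (∀ i < k, ‖e i‖ = 1) ∧
      (∀ j < k, ∀ i < j, ⟪e i, e j⟫_ℝ = 0) ∧ (∀ j < k, ∀ i < j, y i (S (e j)) = 0) ∧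
      (∀ i < k, t < y i (S (e i))) ∧
      (∀ x, (∀ i < k, y i (S x) = 0) → ∀ j < k, ⟪e j, x⟫_ℝ = 0) := by
  induction k with
  | zero =>
    refine ⟨0, 0, ?_, ?_, ?_, ?_, ?_, ?_⟩ <;> simp
  | succ k ih =>
    obtain ⟨y, e, hy, he, horth, htri, hdiag, hlast⟩ := ih (by omega)
    obtain ⟨x, hx, hLx, hSx⟩ := exists_mem_ker S m t ht0 ht k (by omega)
      (fun i => (y i).comp S)
    obtain ⟨yk, hyk, hykx⟩ := exists_dual_vector'' ℝ (S x)
    have hykx' : t < yk (S x) := by
      rw [hykx]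
      exact hSx
    -- the closed subspace
    let K : Submodule ℝ X := ⨅ i : Fin k, LinearMap.ker ((y i).comp S : X →L[ℝ] ℝ).toLinearMap
    have hKmem : ∀ z, z ∈ K ↔ ∀ i < k, y i (S z) = 0 := by
      intro z
      simp only [K, Submodule.mem_iInf, LinearMap.mem_ker]
      constructor
      · intro h i hi
        exact h ⟨i, hi⟩
      · intro h i
        exact h i i.2
    have hKclosed : IsClosed (K : Set X) := by
      have h1 : (K : Set X) = ⋂ i : Fin k, {z | y i (S z) = 0} := by
        ext z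
        rw [Set.mem_iInter]
        constructor
        · intro h i
          exact (hKmem z).1 h i i.2
        · intro h
          exact (hKmem z).2 fun i hi => h ⟨i, hi⟩
      rw [h1]
      exact isClosed_iInter fun i => isClosed_eq ((y i).continuous.comp S.continuous)
        continuous_const
    have : CompleteSpace K := hKclosed.completeSpace_coe
    -- Riesz representation
    let ψ : K →L[ℝ] ℝ := (yk.comp S).comp K.subtypeL
    obtain ⟨v, hv⟩ := (InnerProductSpace.toDual ℝ K).surjective ψ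
    have hv' : ∀ z : K, ⟪(v : X), (z : X)⟫_ℝ = yk (S (z : X)) := by
      intro z
      have h1 : InnerProductSpace.toDual ℝ K v z = ψ z := by rw [hv]
      rw [InnerProductSpace.toDual_apply_apply] at h1
      exact h1
    have hxK : x ∈ K := (hKmem x).2 fun i hi => hLx i hi
    have hvx : t < ‖(v : X)‖ := by
      have h1 := hv' ⟨x, hxK⟩
      simp only at h1
      calc t < yk (S x) := hykx'
        _ = ⟪(v : X), x⟫_ℝ := h1.symm
        _ ≤ ‖(v : X)‖ * ‖x‖ := real_inner_le_norm _ _
        _ ≤ ‖(v : X)‖ * 1 := mul_le_mul_of_nonneg_left hx (norm_nonneg _)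
        _ = ‖(v : X)‖ := mul_one _
    have hvpos : 0 < ‖(v : X)‖ := lt_of_le_of_lt ht0 hvx
    set ek : X := (‖(v : X)‖)⁻¹ • (v : X) with hek
    have hekK : ek ∈ K := K.smul_mem _ v.2
    have hnormek : ‖ek‖ = 1 := by
      rw [hek, norm_smul, norm_inv, norm_norm, inv_mul_cancel₀ hvpos.ne']
    have hykek : yk (S ek) = ‖(v : X)‖ := by
      rw [← hv' ⟨ek, hekK⟩]
      simp only [hek]
      rw [real_inner_smul_right, real_inner_self_eq_norm_sq]
      field_simp
    refine ⟨Function.update y k yk, Function.update e k ek, ?_, ?_, ?_, ?_, ?_, ?_⟩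
    · intro i hi
      rcases Nat.lt_succ_iff_lt_or_eq.1 hi with h | rfl
      · rw [Function.update_of_ne h.ne]
        exact hy i h
      · rw [Function.update_self]
        exact hyk
    · intro i hi
      rcases Nat.lt_succ_iff_lt_or_eq.1 hi with h | rfl
      · rw [Function.update_of_ne h.ne]
        exact he i h
      · rw [Function.update_self]
        exact hnormek
    · intro j hj i hij
      rcases Nat.lt_succ_iff_lt_or_eq.1 hj with h | rfl
      · rw [Function.update_of_ne h.ne, Function.update_of_ne (hij.trans h).ne]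
        exact horth j h i hij
      · rw [Function.update_self, Function.update_of_ne hij.ne]
        exact hlast ek ((hKmem ek).1 hekK) i hij
    · intro j hj i hij
      rcases Nat.lt_succ_iff_lt_or_eq.1 hj with h | rfl
      · rw [Function.update_of_ne h.ne, Function.update_of_ne (hij.trans h).ne]
        exact htri j h i hij
      · rw [Function.update_self, Function.update_of_ne hij.ne]
        exact (hKmem ek).1 hekK i hij
    · intro i hi
      rcases Nat.lt_succ_iff_lt_or_eq.1 hi with h | rfl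
      · rw [Function.update_of_ne h.ne, Function.update_of_ne h.ne]
        exact hdiag i h
      · rw [Function.update_self, Function.update_self, hykek]
        exact hvx
    · intro z hz j hj
      have hz1 : ∀ i < k, y i (S z) = 0 := by
        intro i hi
        have := hz i (by omega)
        rwa [Function.update_of_ne hi.ne] at this
      have hz2 : yk (S z) = 0 := by
        have := hz k (by omega)
        rwa [Function.update_self] at this
      rcases Nat.lt_succ_iff_lt_or_eq.1 hj with h | rfl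
      · rw [Function.update_of_ne h.ne]
        exact hlast z hz1 j h
      · rw [Function.update_self, hek, real_inner_smul_left, hv' ⟨z, (hKmem z).2 hz1⟩]
        simp [hz2]

/-- the embedding of the euclidean space -/
noncomputable def J {H : Type*} [NormedAddCommGroup H] [InnerProductSpace ℝ H] {n : ℕ}
    (u : Fin n → H) : EuclideanSpace ℝ (Fin n) →ₗ[ℝ] H where
  toFun v := ∑ i, v i • u i
  map_add' v w := by
    simp [add_smul, sum_add_distrib]
  map_smul' c v := by
    simp [smul_sum, smul_smul]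

theorem norm_J {H : Type*} [NormedAddCommGroup H] [InnerProductSpace ℝ H] {n : ℕ}
    (u : Fin n → H) (hu : Orthonormal ℝ u) (v : EuclideanSpace ℝ (Fin n)) : ‖J u v‖ = ‖v‖ := by
  have h1 : ‖J u v‖ ^ 2 = ‖v‖ ^ 2 := by
    rw [← real_inner_self_eq_norm_sq, EuclideanSpace.norm_sq_eq]
    change ⟪∑ i, v i • u i, ∑ i, v i • u i⟫_ℝ = _
    rw [hu.inner_sum]
    refine sum_congr rfl fun i _ => ?_
    rw [Real.norm_eq_abs, sq_abs, sq]
    simp
  exact (sq_eq_sq₀ (norm_nonneg _) (norm_nonneg _)).1 h1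

theorem key (S : X →L[ℝ] Y) (n : ℕ) (hn : 1 ≤ n) (t : ℝ) (ht0 : 0 < t)
    (ht : ENNReal.ofReal t < gelfand S (closedBall 0 1) (n - 1)) :
    ENNReal.ofReal ((Real.sqrt n)⁻¹ ^ n * t ^ n) ≤
      ∏ k ∈ range n, hilbertNumber S (closedBall 0 1) k := by
  classical
  obtain ⟨y, e, hy, he, horth, htri, hdiag, -⟩ :=
    recursion S (n - 1) t ht0.le ht n (by omega)
  have hn0 : (0 : ℝ) < n := by exact_mod_cast hn
  have hsn : 0 < Real.sqrt n := Real.sqrt_pos.2 hn0
  -- an orthonormal family in ℓ²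
  obtain ⟨u, hu⟩ : ∃ u : Fin n → Ell2, Orthonormal ℝ u := by
    have h1 := (HilbertBasis.ofRepr (LinearIsometryEquiv.refl ℝ Ell2)).orthonormal
    exact ⟨_, h1.comp (fun i : Fin n => (i : ℕ)) Fin.val_injective⟩
  have hon : Orthonormal ℝ (fun i : Fin n => e i) := by
    refine ⟨fun i => he i i.2, ?_⟩
    intro i j hij
    rcases lt_trichotomy i j with h | h | h
    · exact horth j j.2 i h
    · exact absurd h hij
    · rw [real_inner_comm]
      exact horth i i.2 j h
  let M : Matrix (Fin n) (Fin n) ℝ := Matrix.of fun i j => y i (S (e j))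
  let b := (EuclideanSpace.basisFun (Fin n) ℝ).toBasis
  let T : EuclideanSpace ℝ (Fin n) →ₗ[ℝ] EuclideanSpace ℝ (Fin n) := Matrix.toLin b b M
  have hT : ∀ (v : EuclideanSpace ℝ (Fin n)) (i : Fin n),
      T v i = ∑ j : Fin n, y i (S (e j)) * v j := by
    intro v i
    have h1 : T = Matrix.toEuclideanLin M := by
      rw [Matrix.toEuclideanLin_eq_toLin_orthonormal]
    rw [h1]
    simp [M, Matrix.toLpLin_apply, Matrix.mulVec, dotProduct]
  have hdet : LinearMap.det T = ∏ i : Fin n, y i (S (e i)) := by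
    have h1 : LinearMap.det T = M.det := by
      simp only [T, LinearMap.det_toLin]
    rw [h1, Matrix.det_of_isLowerTriangular]
    · rfl
    · intro i j hij
      have : (i : ℕ) < j := hij
      exact htri j j.2 i this
  obtain ⟨s, hs0, hsprod, hs⟩ := exists_singular (finrank_euclideanSpace_fin (𝕜 := ℝ) (n := n)) T
  -- the operators
  let A : Ell2 →L[ℝ] X := ∑ j : Fin n, (innerSL ℝ (u j)).smulRight (e j)
  have hA : ∀ w, A w = ∑ j : Fin n, ⟪u j, w⟫_ℝ • e j := by
    intro w
    simp [A]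
  let B : Y →L[ℝ] Ell2 := (Real.sqrt n)⁻¹ • ∑ i : Fin n, (y i).smulRight (u i)
  have hB : ∀ z, B z = (Real.sqrt n)⁻¹ • ∑ i : Fin n, (y i) z • u i := by
    intro z
    simp [B]
  have hAnorm : ∀ w, ‖A w‖ ≤ ‖w‖ := by
    intro w
    have h1 : ‖A w‖ ^ 2 ≤ ‖w‖ ^ 2 := by
      rw [hA, ← real_inner_self_eq_norm_sq, hon.inner_sum]
      calc ∑ i, (starRingEnd ℝ) ⟪u i, w⟫_ℝ * ⟪u i, w⟫_ℝ = ∑ i, ‖⟪u i, w⟫_ℝ‖ ^ 2 := by
            refine sum_congr rfl fun i _ => ?_
            rw [Real.norm_eq_abs, sq_abs, sq]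
            simp
        _ ≤ ‖w‖ ^ 2 := hu.sum_inner_products_le w
    exact (sq_le_sq₀ (norm_nonneg _) (norm_nonneg _)).1 h1
  have hBnorm : ‖B‖ ≤ 1 := by
    refine ContinuousLinearMap.opNorm_le_bound _ zero_le_one fun z => ?_
    rw [one_mul]
    have h1 : ‖B z‖ ^ 2 ≤ ‖z‖ ^ 2 := by
      rw [hB, norm_smul, mul_pow]
      have h2 : ‖∑ i : Fin n, (y i) z • u i‖ ^ 2 = ∑ i : Fin n, (y i z) ^ 2 := by
        rw [← real_inner_self_eq_norm_sq, hu.inner_sum]
        refine sum_congr rfl fun i _ => ?_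
        rw [sq]
        simp
      rw [h2, Real.norm_of_nonneg (inv_nonneg.2 hsn.le), inv_pow, Real.sq_sqrt hn0.le]
      have h3 : ∑ i : Fin n, (y i z) ^ 2 ≤ ∑ i : Fin n, ‖z‖ ^ 2 := by
        refine sum_le_sum fun i _ => ?_
        have h4 : |y i z| ≤ ‖z‖ := by
          have := (y i).le_opNorm z
          rw [Real.norm_eq_abs] at this
          exact this.trans (mul_le_of_le_one_left (norm_nonneg _) (hy i i.2))
        rw [← sq_abs]
        exact pow_le_pow_left₀ (abs_nonneg _) h4 2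
      rw [sum_const, card_univ, Fintype.card_fin, nsmul_eq_mul] at h3
      rw [inv_mul_le_iff₀ hn0]
      exact h3
    exact (sq_le_sq₀ (norm_nonneg _) (norm_nonneg _)).1 h1
  have hBSA : ∀ v : EuclideanSpace ℝ (Fin n),
      B (S (A (J u v))) = (Real.sqrt n)⁻¹ • J u (T v) := by
    intro v
    have h1 : A (J u v) = ∑ j : Fin n, v j • e j := by
      rw [hA]
      refine sum_congr rfl fun j _ => ?_
      congr 1
      change ⟪u j, ∑ i, v i • u i⟫_ℝ = _
      exact hu.inner_right_fintype _ _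
    rw [h1, hB]
    congr 1
    change _ = ∑ i, T v i • u i
    refine sum_congr rfl fun i _ => ?_
    congr 1
    rw [hT, map_sum, map_sum]
    refine sum_congr rfl fun j _ => ?_
    rw [map_smul, map_smul, smul_eq_mul, mul_comm]
  have hbound : ∀ k : Fin n, ENNReal.ofReal ((Real.sqrt n)⁻¹ * s k) ≤
      hilbertNumber S (closedBall 0 1) k := by
    intro k
    have h1 : ENNReal.ofReal ((Real.sqrt n)⁻¹ * s k) ≤
        gelfand (fun v => B (S (A v))) (closedBall 0 1) k := by
      refine le_iInf fun L => ?_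
      obtain ⟨v, hv1, hv2, hv3⟩ := hs k (LinearMap.pi fun i => (L i).toLinearMap ∘ₗ J u)
      have hL : ∀ i, L i (J u v) = 0 := fun i => congrFun hv2 i
      refine le_trans ?_ (le_iSup_of_le (J u v) (le_iSup_of_le ?_ (le_iSup_of_le (-J u v)
        (le_iSup_of_le ?_ (le_iSup_of_le ?_ le_rfl)))))
      · apply ENNReal.ofReal_le_ofReal
        change _ ≤ ‖B (S (A (J u v))) - B (S (A (-J u v)))‖ / 2
        rw [map_neg, map_neg, map_neg, sub_neg_eq_add, ← two_smul ℝ, norm_smul, hBSA, norm_smul,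
          norm_J u hu, Real.norm_of_nonneg (inv_nonneg.2 hsn.le), Real.norm_of_nonneg zero_le_two]
        have := mul_le_mul_of_nonneg_left hv3 (inv_nonneg.2 hsn.le)
        linarith
      · rw [mem_closedBall_zero_iff, norm_J u hu, hv1]
      · rw [mem_closedBall_zero_iff, norm_neg, norm_J u hu, hv1]
      · intro i
        rw [map_neg, hL, neg_zero]
    refine h1.trans ?_
    refine le_iSup_of_le B (le_iSup_of_le ⟨B.isBoundedLinearMap, fun z => ?_⟩ (le_iSup_of_le A
      (le_iSup_of_le 0 (le_iSup_of_le ⟨A.isBoundedLinearMap, ?_, ?_⟩ le_rfl))))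
    · exact (B.le_opNorm z).trans (mul_le_of_le_one_left (norm_nonneg _) hBnorm)
    · simp
    · intro v hv
      rw [add_zero, mem_closedBall_zero_iff]
      exact (hAnorm v).trans hv
  calc ENNReal.ofReal ((Real.sqrt n)⁻¹ ^ n * t ^ n)
      ≤ ENNReal.ofReal (∏ k : Fin n, ((Real.sqrt n)⁻¹ * s k)) := by
        apply ENNReal.ofReal_le_ofReal
        rw [prod_mul_distrib, hsprod, hdet, prod_const, card_univ, Fintype.card_fin]
        refine mul_le_mul_of_nonneg_left ?_ (by positivity)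
        refine le_trans ?_ (le_abs_self _)
        calc t ^ n = ∏ _i : Fin n, t := by simp
          _ ≤ ∏ i : Fin n, y i (S (e i)) :=
            prod_le_prod (fun i _ => ht0.le) fun i _ => (hdiag i i.2).le
    _ = ∏ k : Fin n, ENNReal.ofReal ((Real.sqrt n)⁻¹ * s k) :=
        ENNReal.ofReal_prod_of_nonneg fun i _ => mul_nonneg (inv_nonneg.2 hsn.le) (hs0 i)
    _ ≤ ∏ k : Fin n, hilbertNumber S (closedBall 0 1) k := prod_le_prod' fun k _ => hbound k
    _ = ∏ k ∈ range n, hilbertNumber S (closedBall 0 1) k :=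
        Fin.prod_univ_eq_prod_range (fun k => hilbertNumber S (closedBall 0 1) k) n

end Recursion

end Aux

open Aux

/-- **Main result.** For every Hilbert space `X`, every Banach space `Y`, every bounded linear
`S : X → Y` and every `n ≥ 1`,
`c_{n-1}(S, B_X) ≤ n^{1/2} (∏_{k<n} h_k(S, B_X))^{1/n}`. -/
theorem result {X Y : Type*} [NormedAddCommGroup X] [InnerProductSpace ℝ X] [CompleteSpace X]
    [NormedAddCommGroup Y] [NormedSpace ℝ Y] [CompleteSpace Y] (S : X →L[ℝ] Y) (n : ℕ)
    (hn : 1 ≤ n) :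
    gelfandBall S (n - 1) ≤
      (n : ℝ≥0∞) ^ (1 / 2 : ℝ) *
        (∏ k ∈ range n, hilbertNumber S (closedBall 0 1) k) ^ (1 / n : ℝ) := by
  have hn0 : (0 : ℝ) < n := by exact_mod_cast hn
  have hsn : 0 < Real.sqrt n := Real.sqrt_pos.2 hn0
  refine le_of_forall_lt_imp_le_of_dense fun c hc => ?_
  have hctop : c ≠ ∞ := ne_top_of_lt hc
  rcases eq_or_ne c 0 with rfl | hc0
  · exact zero_le
  set t : ℝ := c.toReal with ht
  have ht0 : 0 < t := ENNReal.toReal_pos hc0 hctop
  have hct : c = ENNReal.ofReal t := (ENNReal.ofReal_toReal hctop).symm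
  rw [hct] at hc ⊢
  have h1 := key S n hn t ht0 hc
  calc ENNReal.ofReal t = ENNReal.ofReal (Real.sqrt n) * ENNReal.ofReal ((Real.sqrt n)⁻¹ * t) := by
        rw [← ENNReal.ofReal_mul hsn.le, ← mul_assoc, mul_inv_cancel₀ hsn.ne', one_mul]
    _ = (n : ℝ≥0∞) ^ (1 / 2 : ℝ) *
        (ENNReal.ofReal ((Real.sqrt n)⁻¹ ^ n * t ^ n)) ^ (1 / n : ℝ) := by
        congr 1
        · rw [Real.sqrt_eq_rpow, ← ENNReal.ofReal_rpow_of_pos hn0, ENNReal.ofReal_natCast]
        · rw [← mul_pow, ENNReal.ofReal_rpow_of_pos (by positivity), ← Real.rpow_natCast,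
            ← Real.rpow_mul (by positivity), mul_one_div_cancel hn0.ne', Real.rpow_one]
    _ ≤ _ := by
        gcongr

end Pool.Agent.Results.MP_93c8fe_an.GelfandHilbert
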